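import Pool.Agent.X235.Wang.Fin
import Pool.Agent.Helper446.Comp

set_option autoImplicit false

/-!
The finite conditions are c.e.
-/

namespace Pool.Agent.X235.Wang

open Encodable Pool.Agent.Helper446

theorem prim_allL : Primrec fun x : List Tile × ℕ => allL x.1 x.2 := by
  have h : Primrec fun x : List Tile × ℕ => Nat.rec (motive := fun _ => List (List Tile)) [[]]
      (fun _ IH => IH.flatMap fun l => x.1.map fun t => t :: l) x.2 := by
    refine Primrec.nat_rec' (f := fun x : List Tile × ℕ => x.2) (g := fun _ => [[]])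
      (h := fun x p => p.2.flatMap fun l => x.1.map fun t => t :: l) Primrec.snd
      (Primrec.const _) ?_
    refine Primrec.list_flatMap (Primrec.snd.comp Primrec.snd) ?_
    refine Primrec.list_map (Primrec.fst.comp (Primrec.fst.comp Primrec.fst)) ?_
    exact Primrec.list_cons.comp Primrec.snd (Primrec.snd.comp Primrec.fst)
  refine h.of_eq fun x => ?_
  generalize x.2 = n
  induction n with
  | zero => rfl
  | succ n ih => simp only at ih ⊢; rw [ih, allL]

@[fun_prop] theorem c_allL {α : Type} [Primcodable α] {f : α → List Tile} {g : α → ℕ}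
    (hf : Computable f) (hg : Computable g) : Computable fun x => allL (f x) (g x) :=
  prim_allL.to_comp.comp (hf.pair hg)

@[fun_prop] theorem c_gt {α : Type} [Primcodable α] {f : α → List Tile} {g : α → ℕ}
    (hf : Computable f) (hg : Computable g) : Computable fun x => gt (f x) (g x) := by
  unfold gt
  exact Primrec.option_getD.to_comp.comp (by fun_prop) (Computable.const _)

@[fun_prop] theorem c_sd {α : Type} [Primcodable α] {g : α → ℕ}
    (hg : Computable g) : Computable fun x => sd (g x) := by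
  unfold sd
  fun_prop

theorem prim_fac : Primrec Nat.factorial := by
  have := Primrec.nat_rec₁ 1 (f := fun n IH : ℕ => (n + 1) * IH)
    (Primrec.nat_mul.comp (Primrec.succ.comp Primrec.fst) Primrec.snd)
  refine this.of_eq fun n => ?_
  induction n with
  | zero => rfl
  | succ n ih => rw [Nat.factorial_succ, ← ih]

@[fun_prop] theorem c_RN {α : Type} [Primcodable α] {g : α → ℕ}
    (hg : Computable g) : Computable fun x => RN (g x) := by
  have h : Primrec RN := by
    have h1 : Primrec fun D : ℕ => 8 * (2 * (D * D)).factorial * (D * D * D) := by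
      refine Primrec.nat_mul.comp (Primrec.nat_mul.comp (Primrec.const 8) (prim_fac.comp
        (Primrec.nat_mul.comp (Primrec.const 2) (Primrec.nat_mul.comp Primrec.id Primrec.id))))
        (Primrec.nat_mul.comp (Primrec.nat_mul.comp Primrec.id Primrec.id) Primrec.id)
    refine h1.of_eq fun D => ?_
    unfold RN
    rw [show D * D = D ^ 2 by ring, show D ^ 2 * D = D ^ 3 by ring]
  exact h.to_comp.comp hg

theorem re_Def {α : Type} [Primcodable α] {n : α → ℕ} {p : α → List Tile} (hn : Computable n)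
    (hp : Computable p) : REPred fun x => Def (n x) (p x) := by
  unfold Def
  refine RE.ex (p := fun (x : α) (k : ℕ × ℕ) => k.1 < n x ∧ k.2 < n x ∧
    ((k.1 + 1 < n x ∧ (gt (p x) (k.1 * n x + k.2)).2.1 ≠ (gt (p x) ((k.1 + 1) * n x + k.2)).1) ∨
    (k.2 + 1 < n x ∧ (gt (p x) (k.1 * n x + k.2)).2.2.2 ≠
      (gt (p x) (k.1 * n x + (k.2 + 1))).2.2.1))) ?_
  have h1 : Computable fun y : α × (ℕ × ℕ) => n y.1 := hn.comp Computable.fst
  have h2 : Computable fun y : α × (ℕ × ℕ) => p y.1 := hp.comp Computable.fst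
  refine RE.and (RE.lt (by fun_prop) (by fun_prop)) (RE.and (RE.lt (by fun_prop) (by fun_prop))
    (RE.or (RE.and (RE.lt (by fun_prop) (by fun_prop)) (RE.ne (by fun_prop) (by fun_prop)))
      (RE.and (RE.lt (by fun_prop) (by fun_prop)) (RE.ne (by fun_prop) (by fun_prop)))))

/-- The body of the condition `Cen`. -/
def Bd (D N : ℕ) (p : List Tile) (c : ℕ × ℕ) (i j i' j' : ℕ) : Prop :=
  (i + RN D < N ∨ N + RN D < i ∨ j + RN D < N ∨ N + RN D < j ∨
       i' + RN D < N ∨ N + RN D < i' ∨ j' + RN D < N ∨ N + RN D < j' ∨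
       i' + D ≠ i + c.1 ∨ j' + D ≠ j + c.2) ∨
      gt p (i' * sd N + j') = gt p (i * sd N + j)

section
variable {α : Type} [Primcodable α]

theorem re_Bd {D N : α → ℕ} {p : α → List Tile} {c : α → ℕ × ℕ} {i j i' j' : α → ℕ}
    (hD : Computable D) (hN : Computable N) (hp : Computable p) (hc : Computable c)
    (hi : Computable i) (hj : Computable j) (hi' : Computable i') (hj' : Computable j') :
    REPred fun x => Bd (D x) (N x) (p x) (c x) (i x) (j x) (i' x) (j' x) := by
  unfold Bd
  refine RE.or ?_ (RE.eq (by fun_prop) (by fun_prop))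
  refine RE.or (RE.lt (by fun_prop) (by fun_prop)) ?_
  refine RE.or (RE.lt (by fun_prop) (by fun_prop)) ?_
  refine RE.or (RE.lt (by fun_prop) (by fun_prop)) ?_
  refine RE.or (RE.lt (by fun_prop) (by fun_prop)) ?_
  refine RE.or (RE.lt (by fun_prop) (by fun_prop)) ?_
  refine RE.or (RE.lt (by fun_prop) (by fun_prop)) ?_
  refine RE.or (RE.lt (by fun_prop) (by fun_prop)) ?_
  refine RE.or (RE.lt (by fun_prop) (by fun_prop)) ?_
  refine RE.or (RE.ne (by fun_prop) (by fun_prop)) (RE.ne (by fun_prop) (by fun_prop))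

theorem re_Bd1 {D N : α → ℕ} {p : α → List Tile} {c : α → ℕ × ℕ} {i j i' : α → ℕ}
    (hD : Computable D) (hN : Computable N) (hp : Computable p) (hc : Computable c)
    (hi : Computable i) (hj : Computable j) (hi' : Computable i') :
    REPred fun x => ∀ j' < sd (N x), Bd (D x) (N x) (p x) (c x) (i x) (j x) (i' x) j' := by
  refine RE.all_lt (p := fun (x : α) j' => Bd (D x) (N x) (p x) (c x) (i x) (j x) (i' x) j') ?_
    (by fun_prop)
  exact re_Bd (hD.comp Computable.fst) (hN.comp Computable.fst) (hp.comp Computable.fst)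
    (hc.comp Computable.fst) (hi.comp Computable.fst) (hj.comp Computable.fst)
    (hi'.comp Computable.fst) Computable.snd

theorem re_Bd2 {D N : α → ℕ} {p : α → List Tile} {c : α → ℕ × ℕ} {i j : α → ℕ}
    (hD : Computable D) (hN : Computable N) (hp : Computable p) (hc : Computable c)
    (hi : Computable i) (hj : Computable j) :
    REPred fun x => ∀ i' < sd (N x), ∀ j' < sd (N x),
      Bd (D x) (N x) (p x) (c x) (i x) (j x) i' j' := by
  refine RE.all_lt (p := fun (x : α) i' => ∀ j' < sd (N x),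
    Bd (D x) (N x) (p x) (c x) (i x) (j x) i' j') ?_ (by fun_prop)
  exact re_Bd1 (hD.comp Computable.fst) (hN.comp Computable.fst) (hp.comp Computable.fst)
    (hc.comp Computable.fst) (hi.comp Computable.fst) (hj.comp Computable.fst) Computable.snd

theorem re_Bd3 {D N : α → ℕ} {p : α → List Tile} {c : α → ℕ × ℕ} {i : α → ℕ}
    (hD : Computable D) (hN : Computable N) (hp : Computable p) (hc : Computable c)
    (hi : Computable i) :
    REPred fun x => ∀ j < sd (N x), ∀ i' < sd (N x), ∀ j' < sd (N x),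
      Bd (D x) (N x) (p x) (c x) (i x) j i' j' := by
  refine RE.all_lt (p := fun (x : α) j => ∀ i' < sd (N x), ∀ j' < sd (N x),
    Bd (D x) (N x) (p x) (c x) (i x) j i' j') ?_ (by fun_prop)
  exact re_Bd2 (hD.comp Computable.fst) (hN.comp Computable.fst) (hp.comp Computable.fst)
    (hc.comp Computable.fst) (hi.comp Computable.fst) Computable.snd

theorem re_Bd4 {D N : α → ℕ} {p : α → List Tile} {c : α → ℕ × ℕ}
    (hD : Computable D) (hN : Computable N) (hp : Computable p) (hc : Computable c) :
    REPred fun x => ∀ i < sd (N x), ∀ j < sd (N x), ∀ i' < sd (N x), ∀ j' < sd (N x),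
      Bd (D x) (N x) (p x) (c x) i j i' j' := by
  refine RE.all_lt (p := fun (x : α) i => ∀ j < sd (N x), ∀ i' < sd (N x), ∀ j' < sd (N x),
    Bd (D x) (N x) (p x) (c x) i j i' j') ?_ (by fun_prop)
  exact re_Bd3 (hD.comp Computable.fst) (hN.comp Computable.fst) (hp.comp Computable.fst)
    (hc.comp Computable.fst) Computable.snd

theorem re_Cen {D N : α → ℕ} {p : α → List Tile} (hD : Computable D)
    (hN : Computable N) (hp : Computable p) : REPred fun x => Cen (D x) (N x) (p x) := by
  have h : REPred fun x => ∃ c : ℕ × ℕ, c.1 ≤ 2 * D x ∧ c.2 ≤ 2 * D x ∧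
      (c.1 ≠ D x ∨ c.2 ≠ D x) ∧
      ∀ i < sd (N x), ∀ j < sd (N x), ∀ i' < sd (N x), ∀ j' < sd (N x),
        Bd (D x) (N x) (p x) c i j i' j' := by
    refine RE.ex (p := fun (x : α) (c : ℕ × ℕ) => c.1 ≤ 2 * D x ∧ c.2 ≤ 2 * D x ∧
      (c.1 ≠ D x ∨ c.2 ≠ D x) ∧
      ∀ i < sd (N x), ∀ j < sd (N x), ∀ i' < sd (N x), ∀ j' < sd (N x),
        Bd (D x) (N x) (p x) c i j i' j') ?_
    have h1 : Computable fun y : α × (ℕ × ℕ) => D y.1 := hD.comp Computable.fst
    have h2 : Computable fun y : α × (ℕ × ℕ) => N y.1 := hN.comp Computable.fst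
    have h3 : Computable fun y : α × (ℕ × ℕ) => p y.1 := hp.comp Computable.fst
    exact RE.and (RE.le (by fun_prop) (by fun_prop)) (RE.and (RE.le (by fun_prop) (by fun_prop))
      (RE.and (RE.or (RE.ne (by fun_prop) (by fun_prop)) (RE.ne (by fun_prop) (by fun_prop)))
        (re_Bd4 h1 h2 h3 Computable.snd)))
  exact h

end

theorem re_all : REPred fun S : List Tile => ∀ T, IsTiling S T → IsPeriodic T := by
  have h : REPred fun S : List Tile => Fc S := by
    refine RE.ex (p := fun (S : List Tile) (c : ℕ × ℕ) => 1 ≤ c.1 ∧ RN c.1 ≤ c.2 ∧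
      ∀ p ∈ allL S (sd c.2 * sd c.2), Def (sd c.2) p ∨ Cen c.1 c.2 p) ?_
    refine RE.and (RE.le (by fun_prop) (by fun_prop)) (RE.and (RE.le (by fun_prop) (by fun_prop))
      ?_)
    refine RE.all_mem (p := fun (x : List Tile × (ℕ × ℕ)) (p : List Tile) =>
      Def (sd x.2.2) p ∨ Cen x.2.1 x.2.2 p) ?_ (by fun_prop)
    exact RE.or (re_Def (by fun_prop) (by fun_prop)) (re_Cen (by fun_prop) (by fun_prop)
      (by fun_prop))
  exact h.of_eq fun S => (all_periodic_iff S).symm

theorem re_none : REPred fun S : List Tile => ¬ ∃ T, IsTiling S T := by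
  have h : REPred fun S : List Tile => ∃ N : ℕ, ∀ p ∈ allL S (sd N * sd N), Def (sd N) p := by
    refine RE.ex (p := fun (S : List Tile) (N : ℕ) =>
      ∀ p ∈ allL S (sd N * sd N), Def (sd N) p) ?_
    refine RE.all_mem (p := fun (x : List Tile × ℕ) (p : List Tile) => Def (sd x.2) p) ?_
      (by fun_prop)
    exact re_Def (by fun_prop) (by fun_prop)
  exact h.of_eq fun S => (no_tiling_iff S).symm

end Pool.Agent.X235.Wang
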