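import Mathlib

set_option autoImplicit false

/-!
Wang tiles and prototile sets: definitions.
-/

namespace Pool.Agent.X235.Wang

/-- A Wang tile, given by its colours `(left, right, bottom, top)`; colours are natural numbers. -/
abbrev Tile : Type := ℕ × ℕ × ℕ × ℕ

/-- `T` is a tiling of the plane by the prototile set `S` (given as a list of tiles): every cell
carries a tile of `S`, and adjacent cells agree on the colour of their common edge. -/
def IsTiling (S : List Tile) (T : ℤ × ℤ → Tile) : Prop :=
  (∀ p, T p ∈ S) ∧ (∀ x y : ℤ, (T (x, y)).2.1 = (T (x + 1, y)).1) ∧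
    ∀ x y : ℤ, (T (x, y)).2.2.2 = (T (x, y + 1)).2.2.1

/-- `T` has a nonzero period. -/
def IsPeriodic (T : ℤ × ℤ → Tile) : Prop := ∃ v : ℤ × ℤ, v ≠ 0 ∧ ∀ p, T (p + v) = T p

/-- The set `PTile_FIN` of prototile sets which admit a tiling and all of whose tilings are
periodic. -/
def PTileFIN : Set (List Tile) :=
  {S | (∃ T, IsTiling S T) ∧ ∀ T, IsTiling S T → IsPeriodic T}

end Pool.Agent.X235.Wang
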