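import Pool.Agent.X235.Wang.Unif
import Pool.Agent.X235.Wang.Defs

set_option autoImplicit false

/-!
Finite patterns: a finite condition equivalent to all tilings being periodic.
-/

namespace Pool.Agent.X235.Wang

open Set Topology

/-- The entry number `k` of a list of tiles. -/
def gt (p : List Tile) (k : ℕ) : Tile := (p[k]?).getD (0, 0, 0, 0)

/-- The side of the box of radius `N`. -/
def sd (N : ℕ) : ℕ := 2 * N + 1

/-- A defect of the pattern `p` on the box of side `n`. -/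
def Def (n : ℕ) (p : List Tile) : Prop :=
  ∃ k : ℕ × ℕ, k.1 < n ∧ k.2 < n ∧
    ((k.1 + 1 < n ∧ (gt p (k.1 * n + k.2)).2.1 ≠ (gt p ((k.1 + 1) * n + k.2)).1) ∨
    (k.2 + 1 < n ∧ (gt p (k.1 * n + k.2)).2.2.2 ≠ (gt p (k.1 * n + (k.2 + 1))).2.2.1))

/-- The window radius as a natural number. -/
def RN (D : ℕ) : ℕ := 8 * (2 * D ^ 2).factorial * D ^ 3

theorem RD_eq (D : ℕ) : RD D = RN D := by unfold RD RN KD; push_cast; ring

/-- The central window of the pattern is periodic. -/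
def Cen (D N : ℕ) (p : List Tile) : Prop :=
  ∃ c : ℕ × ℕ, c.1 ≤ 2 * D ∧ c.2 ≤ 2 * D ∧ (c.1 ≠ D ∨ c.2 ≠ D) ∧
    ∀ i < sd N, ∀ j < sd N, ∀ i' < sd N, ∀ j' < sd N,
      (i + RN D < N ∨ N + RN D < i ∨ j + RN D < N ∨ N + RN D < j ∨
       i' + RN D < N ∨ N + RN D < i' ∨ j' + RN D < N ∨ N + RN D < j' ∨
       i' + D ≠ i + c.1 ∨ j' + D ≠ j + c.2) ∨
      gt p (i' * sd N + j') = gt p (i * sd N + j)

/-- The pattern `p` describes `T` on the box of radius `N` around `x`. -/
def Desc (T : ℤ × ℤ → Tile) (x : ℤ × ℤ) (N : ℕ) (p : List Tile) : Prop :=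
  ∀ i < sd N, ∀ j < sd N, gt p (i * sd N + j) = T ((i : ℤ) - N + x.1, (j : ℤ) - N + x.2)

/-- The list of the values of `T` on the box. -/
def lst (T : ℤ × ℤ → Tile) (x : ℤ × ℤ) (N : ℕ) : List Tile :=
  (List.range (sd N * sd N)).map fun k =>
    T (((k / sd N : ℕ) : ℤ) - N + x.1, ((k % sd N : ℕ) : ℤ) - N + x.2)

theorem lst_desc (T : ℤ × ℤ → Tile) (x : ℤ × ℤ) (N : ℕ) : Desc T x N (lst T x N) := by
  intro i hi j hj
  have h1 : i * sd N + j < sd N * sd N := by
    calc i * sd N + j < i * sd N + sd N := by omega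
      _ = (i + 1) * sd N := by ring
      _ ≤ sd N * sd N := Nat.mul_le_mul_right _ hi
  have h0 : 0 < sd N := by unfold sd; omega
  unfold gt lst
  rw [List.getElem?_map, List.getElem?_range h1]
  simp only [Option.map_some, Option.getD_some]
  rw [show (i * sd N + j) / sd N = i by
    rw [mul_comm, Nat.mul_add_div h0, Nat.div_eq_of_lt hj, add_zero],
    show (i * sd N + j) % sd N = j by
      rw [mul_comm, Nat.mul_add_mod, Nat.mod_eq_of_lt hj]]

theorem cen_of_win {T : ℤ × ℤ → Tile} {x w : ℤ × ℤ} {D N : ℕ} {p : List Tile}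
    (hp : Desc T x N p) (h0 : w ≠ 0) (h1 : nb w D) (h2 : Win T (RD D) x w) : Cen D N p := by
  have a1 := abs_le.1 h1.1
  have a2 := abs_le.1 h1.2
  refine ⟨((w.1 + D).toNat, (w.2 + D).toNat), ?_, ?_, ?_, ?_⟩
  · show (w.1 + D).toNat ≤ 2 * D
    omega
  · show (w.2 + D).toNat ≤ 2 * D
    omega
  · show (w.1 + D).toNat ≠ D ∨ (w.2 + D).toNat ≠ D
    by_contra hcon
    apply h0
    ext
    · simp only [Prod.fst_zero]; omega
    · simp only [Prod.snd_zero]; omega
  · intro i hi j hj i' hi' j' hj'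
    dsimp only
    by_contra hcon
    push Not at hcon
    obtain ⟨⟨c1, c2, c3, c4, c5, c6, c7, c8, c9, c10⟩, c11⟩ := hcon
    apply c11
    rw [hp i hi j hj, hp i' hi' j' hj']
    have e := h2 ((i : ℤ) - N + x.1, (j : ℤ) - N + x.2) ?_ ?_
    · rw [← e]
      congr 1
      ext
      · simp only [Prod.fst_add]; omega
      · simp only [Prod.snd_add]; omega
    · rw [RD_eq]
      constructor
      · simp only [Prod.fst_sub]
        rw [abs_le]; omega
      · simp only [Prod.snd_sub]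
        rw [abs_le]; omega
    · rw [RD_eq]
      constructor
      · simp only [Prod.fst_sub, Prod.fst_add]
        rw [abs_le]; omega
      · simp only [Prod.snd_sub, Prod.snd_add]
        rw [abs_le]; omega

theorem win_of_cen {T : ℤ × ℤ → Tile} {x : ℤ × ℤ} {D N : ℕ} {p : List Tile}
    (hp : Desc T x N p) (hN : RN D ≤ N) (h : Cen D N p) :
    ∃ w, w ≠ 0 ∧ nb w D ∧ Win T (RD D) x w := by
  obtain ⟨⟨a, b⟩, h1, h2, h3, h4⟩ := h
  dsimp only at h1 h2 h3 h4
  refine ⟨((a : ℤ) - D, (b : ℤ) - D), ?_, ?_, ?_⟩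
  · intro h0
    have e1 := congrArg Prod.fst h0
    have e2 := congrArg Prod.snd h0
    simp only [Prod.fst_zero, Prod.snd_zero] at e1 e2
    omega
  · constructor
    · rw [abs_le]; dsimp only; omega
    · rw [abs_le]; dsimp only; omega
  · intro y hy1 hy2
    rw [RD_eq] at hy1 hy2
    have b1 := abs_le.1 hy1.1
    have b2 := abs_le.1 hy1.2
    have b3 := abs_le.1 hy2.1
    have b4 := abs_le.1 hy2.2
    simp only [Prod.fst_sub, Prod.snd_sub, Prod.fst_add, Prod.snd_add] at b1 b2 b3 b4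
    have hsd : sd N = 2 * N + 1 := rfl
    have g1 : (y.1 - x.1 + N).toNat < sd N := by omega
    have g2 : (y.2 - x.2 + N).toNat < sd N := by omega
    have g3 : (y.1 + (a - D) - x.1 + N).toNat < sd N := by omega
    have g4 : (y.2 + (b - D) - x.2 + N).toNat < sd N := by omega
    have e := h4 _ g1 _ g2 _ g3 _ g4
    rcases e with e | e
    · omega
    · rw [hp _ g1 _ g2, hp _ g3 _ g4] at e
      rw [Int.toNat_of_nonneg (by omega), Int.toNat_of_nonneg (by omega),
        Int.toNat_of_nonneg (by omega), Int.toNat_of_nonneg (by omega)] at e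
      have f1 : y + ((a : ℤ) - D, (b : ℤ) - D) =
          (y.1 + (a - D) - x.1 + N - N + x.1, y.2 + (b - D) - x.2 + N - N + x.2) := by
        ext
        · simp only [Prod.fst_add]; ring
        · simp only [Prod.snd_add]; ring
      have f2 : y = (y.1 - x.1 + N - N + x.1, y.2 - x.2 + N - N + x.2) := by
        ext
        · simp only []; ring
        · simp only []; ring
      rw [f1, e, ← f2]

theorem no_def_of_tiling {S : List Tile} {T : ℤ × ℤ → Tile} (hT : IsTiling S T) {x : ℤ × ℤ} {N : ℕ}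
    {p : List Tile} (hp : Desc T x N p) : ¬ Def (sd N) p := by
  rintro ⟨⟨i, j⟩, h1, h2, h3 | h3⟩
  · dsimp only at h1 h2 h3
    rw [hp i h1 j h2, hp (i + 1) h3.1 j h2] at h3
    apply h3.2
    have := hT.2.1 ((i : ℤ) - N + x.1) ((j : ℤ) - N + x.2)
    rw [this]
    congr 2
    ext
    · simp only []; push_cast; ring
    · rfl
  · dsimp only at h1 h2 h3
    rw [hp i h1 j h2, hp i h1 (j + 1) h3.1] at h3
    apply h3.2
    have := hT.2.2 ((i : ℤ) - N + x.1) ((j : ℤ) - N + x.2)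
    rw [this]
    congr 4
    push_cast; ring

/-- All lists of length `k` over `S`. -/
def allL (S : List Tile) : ℕ → List (List Tile)
  | 0 => [[]]
  | k + 1 => (allL S k).flatMap fun l => S.map fun t => t :: l

theorem mem_allL {S : List Tile} {k : ℕ} {p : List Tile} :
    p ∈ allL S k ↔ p.length = k ∧ ∀ t ∈ p, t ∈ S := by
  induction k generalizing p with
  | zero =>
    simp only [allL, List.mem_singleton]
    constructor
    · rintro rfl; simp
    · intro h; exact List.length_eq_zero_iff.1 h.1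
  | succ k ih =>
    simp only [allL, List.mem_flatMap, List.mem_map]
    constructor
    · rintro ⟨l, hl, t, ht, rfl⟩
      have := ih.1 hl
      refine ⟨by simp [this.1], fun u hu => ?_⟩
      rcases List.mem_cons.1 hu with rfl | hu
      exacts [ht, this.2 u hu]
    · rintro ⟨h1, h2⟩
      rcases p with _ | ⟨t, l⟩
      · simp at h1
      · refine ⟨l, ih.2 ⟨by simpa using h1, fun u hu => h2 u (List.mem_cons_of_mem _ hu)⟩, t,
          h2 t List.mem_cons_self, rfl⟩

theorem lst_mem {S : List Tile} {T : ℤ × ℤ → Tile} (hT : ∀ p, T p ∈ S) (x : ℤ × ℤ) (N : ℕ) :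
    lst T x N ∈ allL S (sd N * sd N) := by
  rw [mem_allL]
  refine ⟨by simp [lst], fun t ht => ?_⟩
  unfold lst at ht
  rw [List.mem_map] at ht
  obtain ⟨k, _, rfl⟩ := ht
  exact hT _

/-! ### Compactness -/

/-- The finite type of tiles of `S`. -/
abbrev Al (S : List Tile) : Type := {t : Tile // t ∈ S}

instance (S : List Tile) : Finite (Al S) := (List.finite_toSet S).to_subtype

/-- Locally admissible on the box of radius `N`. -/
def VV (S : List Tile) (N : ℕ) : Set (ℤ × ℤ → Al S) :=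
  {T | (∀ x y : ℤ, |x| ≤ N → |x + 1| ≤ N → |y| ≤ N → (T (x, y)).1.2.1 = (T (x + 1, y)).1.1) ∧
    ∀ x y : ℤ, |x| ≤ N → |y| ≤ N → |y + 1| ≤ N → (T (x, y)).1.2.2.2 = (T (x, y + 1)).1.2.2.1}

/-- The space of tilings. -/
def XX (S : List Tile) : Set (ℤ × ℤ → Al S) := {T | IsTiling S fun p => (T p).1}

theorem mem_XX {S : List Tile} {T : ℤ × ℤ → Al S} : T ∈ XX S ↔
    (∀ x y : ℤ, (T (x, y)).1.2.1 = (T (x + 1, y)).1.1) ∧
    ∀ x y : ℤ, (T (x, y)).1.2.2.2 = (T (x, y + 1)).1.2.2.1 := by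
  constructor
  · intro h; exact ⟨h.2.1, h.2.2⟩
  · intro h; exact ⟨fun p => (T p).2, h.1, h.2⟩

theorem closed_rel {S : List Tile} (x y : ℤ × ℤ) (f g : Al S → ℕ) :
    IsClosed {T : ℤ × ℤ → Al S | f (T x) = g (T y)} := by
  have h : Continuous fun T : ℤ × ℤ → Al S => (T x, T y) :=
    (continuous_apply x).prodMk (continuous_apply y)
  exact (isClosed_discrete {p : Al S × Al S | f p.1 = g p.2}).preimage h

theorem VV_closed (S : List Tile) (N : ℕ) : IsClosed (VV S N) := by
  have h : VV S N = (⋂ x : ℤ, ⋂ y : ℤ, ⋂ _ : |x| ≤ N, ⋂ _ : |x + 1| ≤ N, ⋂ _ : |y| ≤ N,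
      {T : ℤ × ℤ → Al S | (T (x, y)).1.2.1 = (T (x + 1, y)).1.1}) ∩
      (⋂ x : ℤ, ⋂ y : ℤ, ⋂ _ : |x| ≤ N, ⋂ _ : |y| ≤ N, ⋂ _ : |y + 1| ≤ N,
      {T : ℤ × ℤ → Al S | (T (x, y)).1.2.2.2 = (T (x, y + 1)).1.2.2.1}) := by
    ext T
    simp only [VV, mem_inter_iff, mem_iInter]
    rfl
  rw [h]
  refine IsClosed.inter ?_ ?_
  · exact isClosed_iInter fun x => isClosed_iInter fun y => isClosed_iInter fun _ =>
      isClosed_iInter fun _ => isClosed_iInter fun _ =>
      closed_rel (x, y) (x + 1, y) (fun t => t.1.2.1) (fun t => t.1.1)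
  · exact isClosed_iInter fun x => isClosed_iInter fun y => isClosed_iInter fun _ =>
      isClosed_iInter fun _ => isClosed_iInter fun _ =>
      closed_rel (x, y) (x, y + 1) (fun t => t.1.2.2.2) (fun t => t.1.2.2.1)

theorem VV_anti (S : List Tile) {N N' : ℕ} (h : N ≤ N') : VV S N' ⊆ VV S N := by
  have hc : (N : ℤ) ≤ N' := by exact_mod_cast h
  intro T hT
  exact ⟨fun x y h1 h2 h3 => hT.1 x y (h1.trans hc) (h2.trans hc) (h3.trans hc),
    fun x y h1 h2 h3 => hT.2 x y (h1.trans hc) (h2.trans hc) (h3.trans hc)⟩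

theorem iInter_VV (S : List Tile) : ⋂ N, VV S N = XX S := by
  ext T
  rw [mem_iInter, mem_XX]
  constructor
  · intro h
    constructor
    · intro x y
      refine (h (x.natAbs + 1 + y.natAbs)).1 x y ?_ ?_ ?_ <;> rw [abs_le] <;> omega
    · intro x y
      refine (h (x.natAbs + 1 + y.natAbs)).2 x y ?_ ?_ ?_ <;> rw [abs_le] <;> omega
  · intro h N
    exact ⟨fun x y _ _ _ => h.1 x y, fun x y _ _ _ => h.2 x y⟩

theorem XX_closed (S : List Tile) : IsClosed (XX S) := by
  rw [← iInter_VV]; exact isClosed_iInter (VV_closed S)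

theorem XX_inv (S : List Tile) : Inv (XX S) := by
  intro T hT v
  rw [mem_XX] at hT ⊢
  constructor
  · intro x y
    have := hT.1 (x + v.1) (y + v.2)
    simp only [sh]
    rw [show ((x, y) : ℤ × ℤ) + v = (x + v.1, y + v.2) from rfl, this,
      show ((x + 1, y) : ℤ × ℤ) + v = (x + v.1 + 1, y + v.2) by
        ext
        · simp only [Prod.fst_add]; ring
        · simp only [Prod.snd_add]]
  · intro x y
    have := hT.2 (x + v.1) (y + v.2)
    simp only [sh]
    rw [show ((x, y) : ℤ × ℤ) + v = (x + v.1, y + v.2) from rfl, this,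
      show ((x, y + 1) : ℤ × ℤ) + v = (x + v.1, y + v.2 + 1) by
        ext
        · simp only [Prod.fst_add]
        · simp only [Prod.snd_add]; ring]

theorem compact_step (S : List Tile) {G : Set (ℤ × ℤ → Al S)} (hG : IsOpen G) (h : XX S ⊆ G) :
    ∃ N0, ∀ N, N0 ≤ N → VV S N ⊆ G := by
  have h1 : ∃ i : ℕ, VV S i ⊆ G := by
    refine exists_subset_nhds_of_isCompact' (V := VV S) ?_ (fun i => (VV_closed S i).isCompact)
      (VV_closed S) ?_
    · intro i j
      exact ⟨max i j, VV_anti S (le_max_left _ _), VV_anti S (le_max_right _ _)⟩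
    · intro T hT
      rw [iInter_VV] at hT
      exact hG.mem_nhds (h hT)
  obtain ⟨i, hi⟩ := h1
  exact ⟨i, fun N hN => (VV_anti S hN).trans hi⟩

/-- Every locally admissible list extends to an element of `VV`. -/
theorem ext_list {S : List Tile} {N : ℕ} {p : List Tile} (hp : p ∈ allL S (sd N * sd N))
    (hd : ¬ Def (sd N) p) : ∃ T ∈ VV S N, Desc (fun q => (T q).1) 0 N p := by
  obtain ⟨hlen, hmem⟩ := mem_allL.1 hp
  have hsd : sd N = 2 * N + 1 := rfl
  have hpos : 0 < p.length := by rw [hlen, hsd]; positivity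
  have hg : ∀ k, k < sd N * sd N → gt p k ∈ S := by
    intro k hk
    unfold gt
    rw [List.getElem?_eq_getElem (by omega)]
    exact hmem _ (List.getElem_mem _)
  have hin : ∀ i j, i < sd N → j < sd N → i * sd N + j < sd N * sd N := by
    intro i j hi hj
    calc i * sd N + j < i * sd N + sd N := by omega
      _ = (i + 1) * sd N := by ring
      _ ≤ sd N * sd N := Nat.mul_le_mul_right _ hi
  let cl : ℤ → ℕ := fun x => min (x + N).toNat (2 * N)
  have hcl : ∀ x, cl x < sd N := fun x => by simp only [cl]; omega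
  let T : ℤ × ℤ → Al S := fun q => ⟨gt p (cl q.1 * sd N + cl q.2), hg _ (hin _ _ (hcl _) (hcl _))⟩
  have hnd : ∀ i j, i < sd N → j < sd N → (i + 1 < sd N →
      (gt p (i * sd N + j)).2.1 = (gt p ((i + 1) * sd N + j)).1) ∧ (j + 1 < sd N →
      (gt p (i * sd N + j)).2.2.2 = (gt p (i * sd N + (j + 1))).2.2.1) := by
    intro i j hi hj
    constructor
    · intro h1
      by_contra hne
      exact hd ⟨(i, j), hi, hj, Or.inl ⟨h1, hne⟩⟩
    · intro h1
      by_contra hne
      exact hd ⟨(i, j), hi, hj, Or.inr ⟨h1, hne⟩⟩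
  refine ⟨T, ⟨?_, ?_⟩, ?_⟩
  · intro x y h1 h2 h3
    rw [abs_le] at h1 h2 h3
    simp only [T]
    have e1 : cl (x + 1) = cl x + 1 := by simp only [cl]; omega
    rw [e1]
    exact (hnd (cl x) (cl y) (hcl _) (hcl _)).1 (by rw [← e1]; exact hcl _)
  · intro x y h1 h2 h3
    rw [abs_le] at h1 h2 h3
    simp only [T]
    have e1 : cl (y + 1) = cl y + 1 := by simp only [cl]; omega
    rw [e1]
    exact (hnd (cl x) (cl y) (hcl _) (hcl _)).2 (by rw [← e1]; exact hcl _)
  · intro i hi j hj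
    simp only [T, Prod.fst_zero, Prod.snd_zero, add_zero]
    have e1 : cl ((i : ℤ) - N) = i := by simp only [cl]; omega
    have e2 : cl ((j : ℤ) - N) = j := by simp only [cl]; omega
    rw [e1, e2]

/-- The finite condition. -/
def Fc (S : List Tile) : Prop :=
  ∃ c : ℕ × ℕ, 1 ≤ c.1 ∧ RN c.1 ≤ c.2 ∧
    ∀ p ∈ allL S (sd c.2 * sd c.2), Def (sd c.2) p ∨ Cen c.1 c.2 p

theorem all_periodic_iff (S : List Tile) : (∀ T, IsTiling S T → IsPeriodic T) ↔ Fc S := by
  constructor
  · intro h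
    obtain ⟨D, hD, hgood⟩ := uniform (XX_closed S) (XX_inv S) (by
      intro T hT
      obtain ⟨v, hv, hT2⟩ := h _ hT
      exact ⟨v, hv, fun z => Subtype.ext (hT2 z)⟩)
    obtain ⟨N0, hN0⟩ := compact_step S (GG_open D) (window_of_good hgood)
    refine ⟨(D, max N0 (RN D)), hD, le_max_right _ _, fun p hp => ?_⟩
    by_cases hd : Def (sd (max N0 (RN D))) p
    · exact Or.inl hd
    · right
      obtain ⟨T, hT1, hT2⟩ := ext_list hp hd
      obtain ⟨w, h0, h1, h2⟩ := hN0 _ (le_max_left _ _) hT1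
      refine cen_of_win hT2 h0 h1 fun y hy1 hy2 => ?_
      rw [h2 y hy1 hy2]
  · rintro ⟨⟨D, N⟩, hD, hN, hall⟩ T hT
    have H : ∀ x, ∃ w, w ≠ 0 ∧ nb w D ∧ Win T (RD D) x w := by
      intro x
      have hdesc := lst_desc T x N
      rcases hall _ (lst_mem hT.1 x N) with h | h
      · exact absurd h (no_def_of_tiling hT hdesc)
      · exact win_of_cen hdesc hN h
    obtain ⟨w, h0, -, h2⟩ := global (KD_mult D) (KD_pos D) (by exact_mod_cast hD) le_rfl H
    refine ⟨KD D • w, ?_, h2⟩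
    rw [Ne, smul_eq_zero]
    push Not
    exact ⟨(KD_pos D).ne', h0⟩

theorem no_tiling_iff (S : List Tile) : (¬ ∃ T, IsTiling S T) ↔
    ∃ N : ℕ, ∀ p ∈ allL S (sd N * sd N), Def (sd N) p := by
  constructor
  · intro h
    have hX : XX S ⊆ ∅ := fun T hT => (h ⟨_, hT⟩).elim
    obtain ⟨N, hN⟩ := compact_step S isOpen_empty hX
    refine ⟨N, fun p hp => ?_⟩
    by_contra hd
    obtain ⟨T, hT1, -⟩ := ext_list hp hd
    exact hN N le_rfl hT1
  · rintro ⟨N, hN⟩ ⟨T, hT⟩
    exact no_def_of_tiling hT (lst_desc T 0 N) (hN _ (lst_mem hT.1 0 N))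

end Pool.Agent.X235.Wang
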