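import Mathlib

set_option autoImplicit false

/-!
If every window of a configuration on `ℤ²` is periodic for a short vector then the configuration is
periodic.
-/

namespace Pool.Agent.X235.Wang

/-- The vector `v` has coordinates of absolute value at most `D`. -/
def nb (v : ℤ × ℤ) (D : ℤ) : Prop := |v.1| ≤ D ∧ |v.2| ≤ D

theorem nb.mono {v : ℤ × ℤ} {D D' : ℤ} (h : nb v D) (h' : D ≤ D') : nb v D' :=
  ⟨h.1.trans h', h.2.trans h'⟩

theorem nb.add {v w : ℤ × ℤ} {a b : ℤ} (hv : nb v a) (hw : nb w b) : nb (v + w) (a + b) :=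
  ⟨(abs_add_le _ _).trans (add_le_add hv.1 hw.1), (abs_add_le _ _).trans (add_le_add hv.2 hw.2)⟩

theorem nb.neg {v : ℤ × ℤ} {a : ℤ} (hv : nb v a) : nb (-v) a := by
  unfold nb
  simp only [Prod.fst_neg, Prod.snd_neg, abs_neg]
  exact hv

theorem nb.smul {v : ℤ × ℤ} {a : ℤ} (hv : nb v a) (m : ℤ) : nb (m • v) (|m| * a) := by
  unfold nb
  simp only [Prod.smul_fst, Prod.smul_snd, smul_eq_mul, abs_mul]
  exact ⟨mul_le_mul_of_nonneg_left hv.1 (abs_nonneg _),
    mul_le_mul_of_nonneg_left hv.2 (abs_nonneg _)⟩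

theorem nb.nonneg {v : ℤ × ℤ} {a : ℤ} (hv : nb v a) : 0 ≤ a := (abs_nonneg _).trans hv.1

theorem nb_zero : nb 0 0 := by simp [nb]

variable {α : Type}

/-- The window of radius `R` around `x` is `w`-periodic. -/
def Win (T : ℤ × ℤ → α) (R : ℤ) (x w : ℤ × ℤ) : Prop :=
  ∀ y, nb (y - x) R → nb (y + w - x) R → T (y + w) = T y

theorem win_nat {T : ℤ × ℤ → α} {R D r : ℤ} {x w : ℤ × ℤ} (h : Win T R x w) (hw : nb w D) (m : ℕ) :
    ∀ y, nb (y - x) r → r + m * D ≤ R → T (y + (m : ℤ) • w) = T y ∧ T (y - (m : ℤ) • w) = T y := by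
  have hD := hw.nonneg
  induction m with
  | zero => intro y _ _; simp
  | succ m ih =>
    intro y hy hR
    have hR' : r + m * D ≤ R := by push_cast at hR; linarith
    obtain ⟨h1, h2⟩ := ih y hy hR'
    have hm : nb ((m : ℤ) • w) (m * D) := by
      have := hw.smul (m : ℤ)
      rwa [abs_of_nonneg (by positivity : (0 : ℤ) ≤ m)] at this
    have hm1 : nb (((m + 1 : ℕ) : ℤ) • w) ((m + 1) * D) := by
      have := hw.smul ((m + 1 : ℕ) : ℤ)
      rwa [abs_of_nonneg (by positivity : (0 : ℤ) ≤ ((m + 1 : ℕ) : ℤ)), Nat.cast_succ] at this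
    push_cast at hR
    constructor
    · rw [← h1, show y + ((m + 1 : ℕ) : ℤ) • w = (y + (m : ℤ) • w) + w by
        push_cast; rw [add_smul, one_smul]; abel]
      apply h
      · rw [show y + (m : ℤ) • w - x = (y - x) + (m : ℤ) • w by abel]
        exact (hy.add hm).mono hR'
      · rw [show y + (m : ℤ) • w + w - x = (y - x) + ((m + 1 : ℕ) : ℤ) • w by
          push_cast; rw [add_smul, one_smul]; abel]
        exact (hy.add hm1).mono hR
    · rw [← h2, show y - (m : ℤ) • w = (y - ((m + 1 : ℕ) : ℤ) • w) + w by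
        push_cast; rw [add_smul, one_smul]; abel]
      symm
      apply h
      · rw [show y - ((m + 1 : ℕ) : ℤ) • w - x = (y - x) + (-(((m + 1 : ℕ) : ℤ) • w)) by abel]
        exact (hy.add hm1.neg).mono hR
      · rw [show y - ((m + 1 : ℕ) : ℤ) • w + w - x = (y - x) + (-((m : ℤ) • w)) by
          push_cast; rw [add_smul, one_smul]; abel]
        exact (hy.add hm.neg).mono hR'

theorem win_int {T : ℤ × ℤ → α} {R D r : ℤ} {x w : ℤ × ℤ} (h : Win T R x w) (hw : nb w D) (m : ℤ)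
    {y : ℤ × ℤ} (hy : nb (y - x) r) (hR : r + |m| * D ≤ R) : T (y + m • w) = T y := by
  have h1 := win_nat h hw m.natAbs y hy (by rw [Int.natCast_natAbs]; exact hR)
  rw [Int.natCast_natAbs] at h1
  rcases le_total 0 m with h0 | h0
  · rw [abs_of_nonneg h0] at h1; exact h1.1
  · rw [abs_of_nonpos h0] at h1
    have := h1.2
    rw [neg_smul, sub_neg_eq_add] at this
    exact this

/-- The determinant. -/
def det (v w : ℤ × ℤ) : ℤ := v.1 * w.2 - v.2 * w.1

theorem det_bound {v w : ℤ × ℤ} {D : ℤ} (hv : nb v D) (hw : nb w D) : |det v w| ≤ 2 * D ^ 2 := by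
  unfold det
  have hD := hv.nonneg
  have h1 : |v.1 * w.2| ≤ D * D := by
    rw [abs_mul]; exact mul_le_mul hv.1 hw.2 (abs_nonneg _) hD
  have h2 : |v.2 * w.1| ≤ D * D := by
    rw [abs_mul]; exact mul_le_mul hv.2 hw.1 (abs_nonneg _) hD
  calc |v.1 * w.2 - v.2 * w.1| ≤ |v.1 * w.2| + |v.2 * w.1| := abs_sub _ _
    _ ≤ 2 * D ^ 2 := by nlinarith

theorem cramer (u v w : ℤ × ℤ) : det u v • w = det w v • u + det u w • v := by
  ext
  · simp only [det, Prod.smul_fst, Prod.fst_add, smul_eq_mul]; ring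
  · simp only [det, Prod.smul_snd, Prod.snd_add, smul_eq_mul]; ring

theorem par_trans {u v w : ℤ × ℤ} (hv : v ≠ 0) (h1 : det u v = 0) (h2 : det v w = 0) :
    det u w = 0 := by
  unfold det at *
  have h3 : v.1 ≠ 0 ∨ v.2 ≠ 0 := by
    by_contra hcon
    push Not at hcon
    exact hv (Prod.ext hcon.1 hcon.2)
  rcases h3 with h3 | h3
  · have : v.1 * (u.1 * w.2 - u.2 * w.1) = 0 := by linear_combination u.1 * h2 + w.1 * h1
    exact (mul_eq_zero.1 this).resolve_left h3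
  · have : v.2 * (u.1 * w.2 - u.2 * w.1) = 0 := by linear_combination u.2 * h2 + w.2 * h1
    exact (mul_eq_zero.1 this).resolve_left h3

/-- `K` is a multiple of all nonzero integers of absolute value at most `2 D²`. -/
def Mult (K D : ℤ) : Prop := ∀ n : ℤ, n ≠ 0 → |n| ≤ 2 * D ^ 2 → n ∣ K

/-- Parallel vectors. -/
theorem par_mul {K D : ℤ} (hK : Mult K D) (hK0 : 0 < K) (hD : 1 ≤ D) {w w' : ℤ × ℤ} (hw : nb w D)
    (hw' : nb w' D) (h0 : w' ≠ 0) (hd : det w w' = 0) :
    ∃ c : ℤ, K • w = c • w' ∧ |c| ≤ K * D := by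
  have h3 : w'.1 ≠ 0 ∨ w'.2 ≠ 0 := by
    by_contra hcon
    push Not at hcon
    exact h0 (Prod.ext hcon.1 hcon.2)
  have hDD : D ≤ 2 * D ^ 2 := by nlinarith
  unfold det at hd
  have hq : ∀ a q : ℤ, a ≠ 0 → K = a * q → |q| ≤ K := by
    intro a q ha hq
    have h1 : K = |a| * |q| := by rw [← abs_mul, ← hq, abs_of_pos hK0]
    have h2 : 1 ≤ |a| := Int.one_le_abs ha
    nlinarith [abs_nonneg q]
  rcases h3 with h3 | h3
  · obtain ⟨q, hq1⟩ := hK w'.1 h3 (hw'.1.trans hDD)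
    refine ⟨q * w.1, ?_, ?_⟩
    · ext
      · simp only [Prod.smul_fst, smul_eq_mul]; rw [hq1]; ring
      · simp only [Prod.smul_snd, smul_eq_mul]; rw [hq1]; linear_combination (-q) * hd
    · rw [abs_mul]
      exact mul_le_mul (hq _ _ h3 hq1) hw.1 (abs_nonneg _) hK0.le
  · obtain ⟨q, hq1⟩ := hK w'.2 h3 (hw'.2.trans hDD)
    refine ⟨q * w.2, ?_, ?_⟩
    · ext
      · simp only [Prod.smul_fst, smul_eq_mul]; rw [hq1]; linear_combination q * hd
      · simp only [Prod.smul_snd, smul_eq_mul]; rw [hq1]; ring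
    · rw [abs_mul]
      exact mul_le_mul (hq _ _ h3 hq1) hw.2 (abs_nonneg _) hK0.le

/-- Two non-parallel local periods give the local period `K w`. -/
theorem lattice {T : ℤ × ℤ → α} {K D R r : ℤ} (hK : Mult K D) (hK0 : 0 < K)
    {x x' w w' u : ℤ × ℤ} (hw : nb w D) (hw' : nb w' D) (hu : nb u D) (hd : det w w' ≠ 0)
    (h1 : Win T R x w) (h2 : Win T R x' w') {z : ℤ × ℤ} (hz : nb (z - x) r) (hz' : nb (z - x') r)
    (hR : r + 4 * K * D ^ 3 ≤ R) : T (z + K • u) = T z := by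
  obtain ⟨q, hq⟩ := hK _ hd (det_bound hw hw')
  have hD := hw.nonneg
  have hqK : |q| ≤ K := by
    have e1 : K = |det w w'| * |q| := by rw [← abs_mul, ← hq, abs_of_pos hK0]
    have e2 : 1 ≤ |det w w'| := Int.one_le_abs hd
    nlinarith [abs_nonneg q]
  have e1 : K • u = (q * det u w') • w + (q * det w u) • w' := by
    rw [hq, mul_comm (det w w') q, mul_smul, cramer w w' u, smul_add, ← mul_smul, ← mul_smul]
  have hb : ∀ a b : ℤ × ℤ, nb a D → nb b D → |q * det a b| * D ≤ 2 * K * D ^ 3 := by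
    intro a b ha hb
    have e2 := det_bound ha hb
    rw [abs_mul]
    have e3 : |q| * |det a b| ≤ K * (2 * D ^ 2) := mul_le_mul hqK e2 (abs_nonneg _) hK0.le
    calc |q| * |det a b| * D ≤ K * (2 * D ^ 2) * D := mul_le_mul_of_nonneg_right e3 hD
      _ = 2 * K * D ^ 3 := by ring
  have b1 := hb u w' hu hw'
  have b2 := hb w u hw hu
  have s1 : T (z + (q * det u w') • w) = T z := by
    refine win_int h1 hw _ hz ?_
    have : 0 ≤ 2 * K * D ^ 3 := by positivity
    linarith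
  have s2 : T (z + (q * det u w') • w + (q * det w u) • w') = T (z + (q * det u w') • w) := by
    refine win_int h2 hw' _ (r := r + |q * det u w'| * D) ?_ ?_
    · rw [show z + (q * det u w') • w - x' = (z - x') + (q * det u w') • w by abel]
      exact hz'.add (hw.smul _)
    · linarith
  rw [e1, ← add_assoc, s2, s1]

/-- One step along a line of defects. -/
theorem step {T : ℤ × ℤ → α} {K D R : ℤ} (hK : Mult K D) (hK0 : 0 < K) (hD : 1 ≤ D)
    (hR : 8 * K * D ^ 3 ≤ R) (H : ∀ x, ∃ w, w ≠ 0 ∧ nb w D ∧ Win T R x w)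
    {w w1 z : ℤ × ℤ} (hw : nb w D) (hw1 : nb w1 D)
    (hz : T (z + K • w) ≠ T z)
    (hwin : ∃ w', w' ≠ 0 ∧ nb w' D ∧ det w1 w' = 0 ∧ Win T R z w') (e : ℤ) (he : |e| ≤ 1) :
    T (z + e • (K • w1) + K • w) ≠ T (z + e • (K • w1)) ∧
    ∃ w', w' ≠ 0 ∧ nb w' D ∧ det w1 w' = 0 ∧ Win T R (z + e • (K • w1)) w' := by
  obtain ⟨w', h0, h1, h2, h3⟩ := hwin
  obtain ⟨c, hc1, hc2⟩ := par_mul hK hK0 hD hw1 h1 h0 h2
  have hD3 : D ≤ D ^ 3 := by nlinarith [sq_nonneg D, mul_pos (by linarith : 0 < D) (by linarith : 0 < D)]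
  have hD23 : D ^ 2 ≤ D ^ 3 := by nlinarith [sq_nonneg D]
  have hec : |e * c| ≤ K * D := by
    rw [abs_mul]
    calc |e| * |c| ≤ 1 * |c| := mul_le_mul_of_nonneg_right he (abs_nonneg _)
      _ ≤ K * D := by rw [one_mul]; exact hc2
  have hecD : |e * c| * D ≤ K * D ^ 2 := by
    calc |e * c| * D ≤ K * D * D := mul_le_mul_of_nonneg_right hec (by linarith)
      _ = K * D ^ 2 := by ring
  have hKD : K * D ^ 2 ≤ K * D ^ 3 := mul_le_mul_of_nonneg_left hD23 hK0.le
  have hKD1 : K * D ≤ K * D ^ 3 := mul_le_mul_of_nonneg_left hD3 hK0.le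
  have hKw : nb (K • w) (K * D) := by
    have := hw.smul K
    rwa [abs_of_pos hK0] at this
  have hs : e • (K • w1) = (e * c) • w' := by rw [hc1, mul_smul]
  have t1 : T (z + e • (K • w1)) = T z := by
    rw [hs]
    refine win_int h3 h1 _ (r := 0) (by simpa using nb_zero) ?_
    nlinarith
  have t2 : T (z + e • (K • w1) + K • w) = T (z + K • w) := by
    rw [show z + e • (K • w1) + K • w = (z + K • w) + e • (K • w1) by abel, hs]
    refine win_int h3 h1 _ (r := K * D) ?_ ?_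
    · rw [show z + K • w - z = K • w by abel]; exact hKw
    · nlinarith
  refine ⟨by rw [t1, t2]; exact hz, ?_⟩
  obtain ⟨w'', g0, g1, g2⟩ := H (z + e • (K • w1))
  refine ⟨w'', g0, g1, ?_, g2⟩
  by_contra hcon
  have hne : det w' w'' ≠ 0 := fun h => hcon (par_trans h0 h2 h)
  apply hz
  refine lattice hK hK0 h1 g1 hw hne h3 g2 (r := K * D) ?_ ?_ ?_
  · rw [sub_self]; exact nb_zero.mono (by positivity)
  · rw [show z - (z + e • (K • w1)) = -(e • (K • w1)) by abel]
    apply nb.neg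
    have := (hw1.smul K).smul e
    rw [abs_of_pos hK0] at this
    refine this.mono ?_
    calc |e| * (K * D) ≤ 1 * (K * D) := mul_le_mul_of_nonneg_right he (by positivity)
      _ = K * D := one_mul _
  · have h9 : 0 ≤ K * D ^ 3 := by positivity
    linarith

/-- A defect spreads along a whole line. -/
theorem line {T : ℤ × ℤ → α} {K D R : ℤ} (hK : Mult K D) (hK0 : 0 < K) (hD : 1 ≤ D)
    (hR : 8 * K * D ^ 3 ≤ R) (H : ∀ x, ∃ w, w ≠ 0 ∧ nb w D ∧ Win T R x w)
    {w z : ℤ × ℤ} (hw : nb w D) (hz : T (z + K • w) ≠ T z) :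
    ∃ w1, w1 ≠ 0 ∧ nb w1 D ∧ det w w1 ≠ 0 ∧ ∀ m : ℤ,
      T (z + m • (K • w1) + K • w) ≠ T (z + m • (K • w1)) ∧
      ∃ w', w' ≠ 0 ∧ nb w' D ∧ det w1 w' = 0 ∧ Win T R (z + m • (K • w1)) w' := by
  obtain ⟨w1, h0, h1, h2⟩ := H z
  have hD3 : D ≤ D ^ 3 := by nlinarith [sq_nonneg D, mul_pos (by linarith : 0 < D) (by linarith : 0 < D)]
  have hD23 : D ^ 2 ≤ D ^ 3 := by nlinarith [sq_nonneg D]
  have hKD : K * D ^ 2 ≤ K * D ^ 3 := mul_le_mul_of_nonneg_left hD23 hK0.le
  refine ⟨w1, h0, h1, ?_, ?_⟩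
  · intro hd
    obtain ⟨c, hc1, hc2⟩ := par_mul hK hK0 hD hw h1 h0 hd
    apply hz
    rw [hc1]
    refine win_int h2 h1 _ (r := 0) (by simpa using nb_zero) ?_
    have : |c| * D ≤ K * D ^ 2 := by
      calc |c| * D ≤ K * D * D := mul_le_mul_of_nonneg_right hc2 (by linarith)
        _ = K * D ^ 2 := by ring
    nlinarith
  · intro m
    induction m using Int.induction_on with
    | zero =>
      simp only [zero_smul, add_zero]
      exact ⟨hz, w1, h0, h1, by unfold det; ring, h2⟩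
    | succ m ih =>
      have := step hK hK0 hD hR H hw h1 ih.1 ih.2 1 (by simp)
      rw [show z + (m : ℤ) • (K • w1) + (1 : ℤ) • (K • w1) = z + ((m : ℤ) + 1) • (K • w1) by
        rw [add_smul]; abel] at this
      exact this
    | pred m ih =>
      have := step hK hK0 hD hR H hw h1 ih.1 ih.2 (-1) (by simp)
      rw [show z + (-(m : ℤ)) • (K • w1) + (-1 : ℤ) • (K • w1) = z + (-(m : ℤ) - 1) • (K • w1) by
        rw [sub_smul, neg_smul, neg_smul, one_smul]; abel] at this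
      exact this

/-- Two transversal lines come close. -/
theorem cross {K D : ℤ} (hK0 : 0 < K) {w1 w3 : ℤ × ℤ} (hw1 : nb w1 D) (hw3 : nb w3 D)
    (hd : det w1 w3 ≠ 0) (v : ℤ × ℤ) :
    ∃ m m' : ℤ, nb (v - m • (K • w1) - m' • (K • w3)) (2 * K * D) := by
  set Δ := det w1 w3 with hΔ
  set P := Δ * K with hP
  have hP0 : P ≠ 0 := mul_ne_zero hd hK0.ne'
  have hPabs : |P| = |Δ| * K := by rw [hP, abs_mul, abs_of_pos hK0]
  refine ⟨det v w3 / P, det w1 v / P, ?_⟩
  set m := det v w3 / P with hm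
  set m' := det w1 v / P with hm'
  set r := det v w3 % P with hr
  set r' := det w1 v % P with hr'
  have e1 : det v w3 = P * m + r := (Int.mul_ediv_add_emod _ _).symm
  have e2 : det w1 v = P * m' + r' := (Int.mul_ediv_add_emod _ _).symm
  have hc := cramer w1 w3 v
  rw [← hΔ] at hc
  have r0 : 0 ≤ r := Int.emod_nonneg _ hP0
  have r1 : r < |P| := Int.emod_lt_abs _ hP0
  have r0' : 0 ≤ r' := Int.emod_nonneg _ hP0
  have r1' : r' < |P| := Int.emod_lt_abs _ hP0
  have hD := hw1.nonneg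
  have hΔ1 : 1 ≤ |Δ| := Int.one_le_abs hd
  have key : ∀ a b c : ℤ, Δ * c = det v w3 * a + det w1 v * b → |a| ≤ D → |b| ≤ D →
      |c - m * (K * a) - m' * (K * b)| ≤ 2 * K * D := by
    intro a b c h ha hb
    have h1 : Δ * (c - m * (K * a) - m' * (K * b)) = r * a + r' * b := by
      rw [mul_sub, mul_sub, h, e1, e2, hP]; ring
    have h2 : |Δ| * |c - m * (K * a) - m' * (K * b)| = |r * a + r' * b| := by
      rw [← abs_mul, h1]
    have h3 : |r * a + r' * b| ≤ |P| * D + |P| * D := by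
      refine (abs_add_le _ _).trans (add_le_add ?_ ?_)
      · rw [abs_mul, abs_of_nonneg r0]
        exact mul_le_mul r1.le ha (abs_nonneg _) (abs_nonneg _)
      · rw [abs_mul, abs_of_nonneg r0']
        exact mul_le_mul r1'.le hb (abs_nonneg _) (abs_nonneg _)
    rw [← h2, hPabs] at h3
    have h4 : |Δ| * |c - m * (K * a) - m' * (K * b)| ≤ |Δ| * (2 * K * D) := by
      calc |Δ| * |c - m * (K * a) - m' * (K * b)| ≤ |Δ| * K * D + |Δ| * K * D := h3
        _ = |Δ| * (2 * K * D) := by ring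
    exact le_of_mul_le_mul_left h4 (by linarith)
  constructor
  · have := key w1.1 w3.1 v.1 (by
      have := congrArg Prod.fst hc
      simpa only [Prod.smul_fst, Prod.fst_add, smul_eq_mul] using this) hw1.1 hw3.1
    simpa only [Prod.fst_sub, Prod.smul_fst, smul_eq_mul] using this
  · have := key w1.2 w3.2 v.2 (by
      have := congrArg Prod.snd hc
      simpa only [Prod.smul_snd, Prod.snd_add, smul_eq_mul] using this) hw1.2 hw3.2
    simpa only [Prod.snd_sub, Prod.smul_snd, smul_eq_mul] using this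

/-- **Windows to global periods.** -/
theorem global {T : ℤ × ℤ → α} {K D R : ℤ} (hK : Mult K D) (hK0 : 0 < K) (hD : 1 ≤ D)
    (hR : 8 * K * D ^ 3 ≤ R) (H : ∀ x, ∃ w, w ≠ 0 ∧ nb w D ∧ Win T R x w) :
    ∃ w, w ≠ 0 ∧ nb w D ∧ ∀ z, T (z + K • w) = T z := by
  by_contra hcon
  push Not at hcon
  obtain ⟨w, hw0, hw, -⟩ := H 0
  obtain ⟨z, hz⟩ := hcon w hw0 hw
  obtain ⟨w1, h10, h11, -, hl1⟩ := line hK hK0 hD hR H hw hz
  obtain ⟨z', hz'⟩ := hcon w1 h10 h11
  obtain ⟨w3, h30, h31, h32, hl3⟩ := line hK hK0 hD hR H h11 hz'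
  obtain ⟨m, m', hmm⟩ := cross hK0 h11 h31 h32 (z' - z)
  obtain ⟨g1, u, hu0, hu1, hu2, hu3⟩ := hl1 m
  obtain ⟨-, u', hu0', hu1', hu2', hu3'⟩ := hl3 (-m')
  have hne : det u u' ≠ 0 := by
    intro h
    apply h32
    exact par_trans hu0' (par_trans hu0 hu2 h) (by
      have : det u' w3 = -det w3 u' := by unfold det; ring
      rw [this, hu2', neg_zero])
  apply g1
  have hD3 : D ≤ D ^ 3 := by nlinarith [sq_nonneg D, mul_pos (by linarith : 0 < D) (by linarith : 0 < D)]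
  have hKD1 : K * D ≤ K * D ^ 3 := mul_le_mul_of_nonneg_left hD3 hK0.le
  refine lattice hK hK0 hu1 hu1' hw hne hu3 hu3' (r := 2 * K * D) ?_ ?_ ?_
  · rw [sub_self]; exact nb_zero.mono (by positivity)
  · have h5 := hmm.neg
    rw [show z + m • (K • w1) - (z' + (-m') • (K • w3)) =
      -(z' - z - m • (K • w1) - m' • (K • w3)) by rw [neg_smul]; abel]
    exact h5
  · have h9 : 0 ≤ K * D ^ 3 := by positivity
    linarith

end Pool.Agent.X235.Wang
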