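import Pool.Agent.X235.Wang.Lines

set_option autoImplicit false

/-!
A subshift of `ℤ²` all of whose elements are periodic has a finite set of periods serving all its
elements.
-/

namespace Pool.Agent.X235.Wang

open Set Topology

/-- The multiplier. -/
def KD (D : ℕ) : ℤ := ((2 * D ^ 2).factorial : ℤ)

/-- The window radius. -/
def RD (D : ℕ) : ℤ := 8 * KD D * D ^ 3

theorem KD_pos (D : ℕ) : 0 < KD D := by unfold KD; positivity

theorem KD_mult (D : ℕ) : Mult (KD D) D := by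
  intro n hn h
  have h1 : (n.natAbs : ℤ) ≤ ((2 * D ^ 2 : ℕ) : ℤ) := by
    rw [Int.natCast_natAbs]; push_cast; exact h
  have h2 : n.natAbs ∣ (2 * D ^ 2).factorial :=
    Nat.dvd_factorial (Int.natAbs_pos.2 hn) (by exact_mod_cast h1)
  unfold KD
  exact (Int.natAbs_dvd).1 (by exact_mod_cast h2)

variable {α : Type}

/-- Translation of configurations. -/
def sh (x : ℤ × ℤ) (T : ℤ × ℤ → α) : ℤ × ℤ → α := fun y => T (y + x)

theorem sh_sh (x y : ℤ × ℤ) (T : ℤ × ℤ → α) : sh x (sh y T) = sh (x + y) T := by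
  funext z; simp only [sh]; congr 1; abel

theorem sh_zero (T : ℤ × ℤ → α) : sh 0 T = T := by funext z; simp [sh]

theorem win_sh {T : ℤ × ℤ → α} {R : ℤ} {x w : ℤ × ℤ} : Win (sh x T) R 0 w ↔ Win T R x w := by
  constructor
  · intro h y h1 h2
    have := h (y - x) (by simpa using h1) (by
      rw [show y - x + w - 0 = y + w - x by abel]; exact h2)
    simp only [sh] at this
    rw [show y - x + w + x = y + w by abel, sub_add_cancel] at this
    exact this
  · intro h y h1 h2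
    simp only [sh]
    rw [show y + w + x = (y + x) + w by abel]
    apply h
    · rw [add_sub_cancel_right]; simpa using h1
    · rw [show y + x + w - x = y + w - 0 by abel]; exact h2

/-- The configurations whose central window is periodic. -/
def GG (α : Type) (D : ℕ) : Set (ℤ × ℤ → α) := {T | ∃ w, w ≠ 0 ∧ nb w D ∧ Win T (RD D) 0 w}

/-- All elements have a period of size at most `D`. -/
def Good (D : ℤ) (X : Set (ℤ × ℤ → α)) : Prop :=
  ∀ T ∈ X, ∃ w : ℤ × ℤ, w ≠ 0 ∧ nb w D ∧ ∀ z, T (z + w) = T z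

/-- Invariance under translations. -/
def Inv (X : Set (ℤ × ℤ → α)) : Prop := ∀ T ∈ X, ∀ x, sh x T ∈ X

theorem good_of_window {D : ℕ} (hD : 1 ≤ D) {X : Set (ℤ × ℤ → α)} (hX : Inv X)
    (h : X ⊆ GG α D) : Good (KD D * D) X := by
  intro T hT
  have H : ∀ x, ∃ w, w ≠ 0 ∧ nb w D ∧ Win T (RD D) x w := by
    intro x
    obtain ⟨w, h0, h1, h2⟩ := h (hX T hT x)
    exact ⟨w, h0, h1, win_sh.1 h2⟩
  obtain ⟨w, h0, h1, h2⟩ := global (KD_mult D) (KD_pos D) (by exact_mod_cast hD) le_rfl H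
  refine ⟨KD D • w, ?_, ?_, h2⟩
  · rw [Ne, smul_eq_zero]
    push Not
    exact ⟨(KD_pos D).ne', h0⟩
  · have := h1.smul (KD D)
    rwa [abs_of_pos (KD_pos D)] at this

theorem window_of_good {D : ℕ} {X : Set (ℤ × ℤ → α)} (h : Good D X) : X ⊆ GG α D := by
  intro T hT
  obtain ⟨w, h0, h1, h2⟩ := h T hT
  exact ⟨w, h0, h1, fun y _ _ => h2 y⟩

theorem nb_finite (D : ℤ) : {v : ℤ × ℤ | nb v D}.Finite := by
  refine ((Set.finite_Icc (-D) D).prod (Set.finite_Icc (-D) D)).subset ?_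
  rintro ⟨a, b⟩ ⟨h1, h2⟩
  exact ⟨abs_le.1 h1, abs_le.1 h2⟩

variable [TopologicalSpace α] [DiscreteTopology α]

theorem isOpen_eq (x y : ℤ × ℤ) : IsOpen {T : ℤ × ℤ → α | T x = T y} := by
  have h : Continuous fun T : ℤ × ℤ → α => (T x, T y) :=
    (continuous_apply x).prodMk (continuous_apply y)
  exact (isOpen_discrete {p : α × α | p.1 = p.2}).preimage h

theorem isClosed_eq' (x y : ℤ × ℤ) : IsClosed {T : ℤ × ℤ → α | T x = T y} := by
  have h : Continuous fun T : ℤ × ℤ → α => (T x, T y) :=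
    (continuous_apply x).prodMk (continuous_apply y)
  exact (isClosed_discrete {p : α × α | p.1 = p.2}).preimage h

theorem GG_open (D : ℕ) : IsOpen (GG α D) := by
  have h : GG α D = ⋃ w : ℤ × ℤ, ⋃ _ : w ≠ 0 ∧ nb w D,
      ⋂ y ∈ {y : ℤ × ℤ | nb (y - 0) (RD D) ∧ nb (y + w - 0) (RD D)},
        {T : ℤ × ℤ → α | T (y + w) = T y} := by
    ext T
    simp only [GG, Win, mem_iUnion, mem_iInter]
    constructor
    · rintro ⟨w, h0, h1, h2⟩
      exact ⟨w, ⟨h0, h1⟩, fun y hy => h2 y hy.1 hy.2⟩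
    · rintro ⟨w, ⟨h0, h1⟩, h2⟩
      exact ⟨w, h0, h1, fun y hy1 hy2 => h2 y ⟨hy1, hy2⟩⟩
  rw [h]
  refine isOpen_iUnion fun w => isOpen_iUnion fun _ => ?_
  refine Set.Finite.isOpen_biInter ?_ fun y _ => isOpen_eq _ _
  refine (nb_finite (RD D)).subset fun y hy => ?_
  have := hy.1
  simpa using this

omit [DiscreteTopology α] in
theorem sh_continuous (x : ℤ × ℤ) : Continuous (sh x : (ℤ × ℤ → α) → _) :=
  continuous_pi fun _ => continuous_apply _

/-- **Uniform periods.** -/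
theorem uniform [Finite α] {X : Set (ℤ × ℤ → α)} (hXc : IsClosed X) (hXi : Inv X)
    (hper : ∀ T ∈ X, ∃ v : ℤ × ℤ, v ≠ 0 ∧ ∀ z, T (z + v) = T z) :
    ∃ D : ℕ, 1 ≤ D ∧ Good D X := by
  by_contra hbad
  let Bad : Set (Set (ℤ × ℤ → α)) :=
    {Y | IsClosed Y ∧ Inv Y ∧ Y ⊆ X ∧ ¬ ∃ D : ℕ, 1 ≤ D ∧ Good (D : ℤ) Y}
  have hzorn : ∃ M, Minimal (· ∈ Bad) M := by
    refine zorn_superset Bad fun c hc hchain => ?_
    rcases c.eq_empty_or_nonempty with rfl | hne
    · exact ⟨X, ⟨hXc, hXi, subset_rfl, hbad⟩, fun s hs => absurd hs (notMem_empty s)⟩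
    · refine ⟨⋂₀ c, ⟨isClosed_sInter fun Y hY => (hc hY).1, ?_, ?_, ?_⟩,
        fun s hs => sInter_subset_of_mem hs⟩
      · intro T hT x Y hY
        exact (hc hY).2.1 T (hT Y hY) x
      · obtain ⟨Y, hY⟩ := hne
        exact (sInter_subset_of_mem hY).trans (hc hY).2.2.1
      · rintro ⟨D, hD, hgood⟩
        have : Nonempty c := hne.to_subtype
        have h1 : ∃ i : c, (i : Set (ℤ × ℤ → α)) ⊆ GG α D := by
          refine exists_subset_nhds_of_isCompact' (V := fun i : c => (i : Set (ℤ × ℤ → α)))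
            ?_ ?_ ?_ ?_
          · rintro ⟨Y, hY⟩ ⟨Z, hZ⟩
            rcases hchain.total hY hZ with h | h
            · exact ⟨⟨Y, hY⟩, subset_rfl, h⟩
            · exact ⟨⟨Z, hZ⟩, h, subset_rfl⟩
          · rintro ⟨Y, hY⟩; exact (hc hY).1.isCompact
          · rintro ⟨Y, hY⟩; exact (hc hY).1
          · intro T hT
            refine (GG_open D).mem_nhds (window_of_good hgood ?_)
            rw [mem_iInter] at hT
            exact fun Y hY => hT ⟨Y, hY⟩
        obtain ⟨⟨Y, hY⟩, h1⟩ := h1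
        have h2 := good_of_window hD (hc hY).2.1 h1
        apply (hc hY).2.2.2
        refine ⟨(KD D * D).toNat, ?_, ?_⟩
        · have : 1 ≤ KD D * D := by
            have h3 := KD_pos D
            have h4 : (1 : ℤ) ≤ D := by exact_mod_cast hD
            nlinarith
          omega
        · rw [Int.toNat_of_nonneg (mul_nonneg (KD_pos D).le (by positivity))]
          exact h2
  obtain ⟨M, ⟨hMc, hMi, hMX, hMbad⟩, hmin⟩ := hzorn
  have hne : M.Nonempty := by
    by_contra hcon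
    rw [not_nonempty_iff_eq_empty] at hcon
    apply hMbad
    refine ⟨1, le_rfl, fun T hT => ?_⟩
    rw [hcon] at hT
    exact absurd hT (notMem_empty T)
  have : Nonempty M := hne.to_subtype
  have : CompactSpace M := isCompact_iff_compactSpace.1 hMc.isCompact
  -- Baire category
  let f : {v : ℤ × ℤ // v ≠ 0} → Set M := fun v => {T | ∀ z, T.1 (z + v.1) = T.1 z}
  have hf1 : ∀ v, IsClosed (f v) := by
    intro v
    have : f v = ⋂ z : ℤ × ℤ, (Subtype.val : M → _) ⁻¹' {T : ℤ × ℤ → α | T (z + v.1) = T z} := by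
      ext T; simp [f]
    rw [this]
    exact isClosed_iInter fun z => (isClosed_eq' _ _).preimage continuous_subtype_val
  have hf2 : ⋃ v, f v = univ := by
    rw [eq_univ_iff_forall]
    rintro ⟨T, hT⟩
    obtain ⟨v, hv, h⟩ := hper T (hMX hT)
    exact mem_iUnion.2 ⟨⟨v, hv⟩, h⟩
  obtain ⟨v, T0, hT0⟩ := nonempty_interior_of_iUnion_of_closed hf1 hf2
  rw [mem_interior] at hT0
  obtain ⟨O, hO1, hO2, hO3⟩ := hT0
  obtain ⟨O', hO', rfl⟩ := isOpen_induced_iff.1 hO2
  let M' : Set (ℤ × ℤ → α) := {T | T ∈ M ∧ ∀ x, sh x T ∉ O'}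
  have hM'c : IsClosed M' := by
    have : M' = M ∩ ⋂ x : ℤ × ℤ, (sh x) ⁻¹' O'ᶜ := by
      ext T; simp [M']
    rw [this]
    exact hMc.inter (isClosed_iInter fun x => hO'.isClosed_compl.preimage (sh_continuous x))
  have hM'i : Inv M' := by
    intro T hT x
    refine ⟨hMi T hT.1 x, fun y => ?_⟩
    rw [sh_sh]; exact hT.2 _
  have hM'ss : M' ⊆ M := fun T hT => hT.1
  have hM'ne : ¬ M ⊆ M' := by
    intro h
    have h1 := (h T0.2).2 0
    rw [sh_zero] at h1
    exact h1 hO3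
  have hM'good : ∃ D : ℕ, 1 ≤ D ∧ Good (D : ℤ) M' := by
    by_contra hcon
    exact hM'ne (hmin ⟨hM'c, hM'i, hM'ss.trans hMX, hcon⟩ hM'ss)
  obtain ⟨D, hD, hgood⟩ := hM'good
  apply hMbad
  refine ⟨D + (|v.1.1|.toNat + |v.1.2|.toNat), by omega, fun T hT => ?_⟩
  by_cases hTM : T ∈ M'
  · obtain ⟨w, h0, h1, h2⟩ := hgood T hTM
    refine ⟨w, h0, h1.mono ?_, h2⟩
    exact_mod_cast Nat.le_add_right _ _
  · have : ∃ x, sh x T ∈ O' := by
      by_contra hcon
      push Not at hcon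
      exact hTM ⟨hT, hcon⟩
    obtain ⟨x, hx⟩ := this
    have h1 : (⟨sh x T, hMi T hT x⟩ : M) ∈ f v := hO1 hx
    refine ⟨v.1, v.2, ?_, fun z => ?_⟩
    · have e1 := Int.toNat_of_nonneg (abs_nonneg v.1.1)
      have e2 := Int.toNat_of_nonneg (abs_nonneg v.1.2)
      constructor
      · push_cast; rw [e1, e2]; linarith [abs_nonneg v.1.2]
      · push_cast; rw [e1, e2]; linarith [abs_nonneg v.1.1]
    · have h2 := h1 (z - x)
      simp only [sh] at h2
      rw [show z - x + v.1 + x = z + v.1 by abel, sub_add_cancel] at h2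
      exact h2

end Pool.Agent.X235.Wang
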